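import Pool.Agent.N641.VB.Stm6
import Pool.Agent.N697.VB.FT3

set_option autoImplicit false

/-!
# Project VB (helper641), part FT6 (helper91): structures interpreted in an algebra (on tuples, modulo
definable equivalence relations) have finitely many types
-/

namespace Pool.Agent.N91.VB

open FirstOrder FirstOrder.Language Pool.Agent.N641.VB

theorem FT6 (TM6 : S_TM6) (TM4 : S_TM4) : S_FT6 := by
  intro L M _ _ σ S bo mu q g hI hA hfin k
  have hon := @In6.onto L M σ ℕ bo mu q ℕ S g hI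
  choose w hw hwg using hon
  let e : Fin σ.n' ⊕ Fin k × Fin σ.r ≃ Fin (σ.n' + k * σ.r) :=
    (Equiv.sumCongr (Equiv.refl _) finProdFinEquiv).trans finSumFinEquiv
  let Y : (Fin k → ℕ) → Fin σ.n' ⊕ Fin k × Fin σ.r → ℕ :=
    fun s => Sum.elim q fun x => w (s x.1) x.2
  let X : (Fin k → ℕ) → Fin (σ.n' + k * σ.r) → ℕ := fun s i => Y s (e.symm i)
  have hX : ∀ s, X s ∘ e = Y s := by
    intro s
    funext i
    change Y s (e.symm (e i)) = Y s i
    rw [e.symm_apply_apply]
  have key : ∀ (χ : L.Formula (Fin k)) (s s' : Fin k → ℕ),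
      (∀ ε, @ft M ℕ bo mu (@cell ℕ bo _ (X s) ε) = @ft M ℕ bo mu (@cell ℕ bo _ (X s') ε)) →
      @Formula.Realize L ℕ S _ χ s → @Formula.Realize L ℕ S _ χ s' := by
    intro χ s s' hss
    obtain ⟨χ', hχ'⟩ := TM6 L M σ (Fin k) χ
    obtain ⟨j, hj⟩ := TM4 M (σ.n' + k * σ.r) (χ'.relabel e)
    have h1 := @hj ℕ ℕ bo bo mu mu (X s) (X s') hA hA (fun ε => congrFun (hss ε) j)
    have r1 := @Formula.realize_relabel (LM M) ℕ (str bo.le mu) _ _ χ' e (X s)
    have r2 := @Formula.realize_relabel (LM M) ℕ (str bo.le mu) _ _ χ' e (X s')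
    rw [hX] at r1 r2
    have t1 := @hχ' ℕ bo mu q ℕ S g hI (fun x => w (s x.1) x.2) (fun i => hw (s i))
    have t2 := @hχ' ℕ bo mu q ℕ S g hI (fun x => w (s' x.1) x.2) (fun i => hw (s' i))
    have e1 : (fun i => g fun j => w (s i) j) = s := funext fun i => hwg (s i)
    have e2 : (fun i => g fun j => w (s' i) j) = s' := funext fun i => hwg (s' i)
    have t1' : @Formula.Realize (LM M) ℕ (str bo.le mu) _ χ' (Y s) ↔
        @Formula.Realize L ℕ S _ χ s := by
      have := t1
      simp only [e1] at this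
      exact this
    have t2' : @Formula.Realize (LM M) ℕ (str bo.le mu) _ χ' (Y s') ↔
        @Formula.Realize L ℕ S _ χ s' := by
      have := t2
      simp only [e2] at this
      exact this
    intro h
    exact t2'.1 (r2.1 (h1.1 (r1.2 (t1'.2 h))))
  have hfr := @Pool.Agent.N697.VB.fin_range M _ ℕ bo mu hA σ.n' _ (Fin k → ℕ) q X
    (fun j => e (Sum.inl j))
    (by
      intro s j
      change Y s (e.symm (e (Sum.inl j))) = q j
      rw [e.symm_apply_apply]
      rfl) hfin
  let G : ((Fin (σ.n' + k * σ.r) → Bool) → FT M) → Set (L.Formula (Fin k)) := fun φ =>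
    {χ | ∃ s, (fun ε => @ft M ℕ bo mu (@cell ℕ bo _ (X s) ε)) = φ ∧
      @Formula.Realize L ℕ S _ χ s}
  refine (hfr.image G).subset ?_
  rintro t ⟨v, rfl⟩
  refine ⟨_, ⟨v, rfl⟩, ?_⟩
  ext χ
  constructor
  · rintro ⟨s, hs, h⟩
    exact key χ s v (fun ε => congrFun hs ε) h
  · intro h
    exact ⟨v, rfl, h⟩

end Pool.Agent.N91.VB
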